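import Mathlib

set_option autoImplicit false

namespace Pool.Agent.H.MP_63e314_pr

open Finset

variable {ι : Type} [Fintype ι] [DecidableEq ι]

def gam (J : Finset ι) (x w : ι → Bool) : ℤ :=
  ∏ i, (if w i = x i then 1 else if i ∈ J then 0 else 2)

noncomputable def Bm (a b : Bool) : ℝ := if a = b then 2 else -1
noncomputable def Hm (a b : Bool) : ℝ := if a = true ∧ b = true then -1 else 1
noncomputable def Dm (a : Bool) : ℝ := if a = true then 3 / 2 else 1 / 2

lemma prod_sum_bool (f : ι → Bool → ℝ) :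
    ∏ i, ∑ b, f i b = ∑ z : ι → Bool, ∏ i, f i (z i) := by
  rw [Finset.prod_univ_sum, Fintype.piFinset_univ]

lemma Bm_eq (a b : Bool) : Bm a b = ∑ c, Dm c * Hm a c * Hm b c := by
  cases a <;> cases b <;> simp [Bm, Hm, Dm] <;> norm_num

lemma Hm_orth (a b : Bool) : ∑ c, Hm a c * Hm b c = if a = b then 2 else 0 := by
  cases a <;> cases b <;> simp [Hm] <;> norm_num

lemma posdef (g : (ι → Bool) → ℝ)
    (h : ∑ u, g u * ∑ w, (∏ i, Bm (u i) (w i)) * g w = 0) : g = 0 := by
  have e1 : ∀ u w : ι → Bool, ∏ i, Bm (u i) (w i) =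
      ∑ z : ι → Bool, (∏ i, Dm (z i)) * (∏ i, Hm (u i) (z i)) * (∏ i, Hm (w i) (z i)) := by
    intro u w
    simp_rw [Bm_eq]
    rw [prod_sum_bool]
    simp_rw [Finset.prod_mul_distrib]
  have e2 : ∑ u, g u * ∑ w, (∏ i, Bm (u i) (w i)) * g w =
      ∑ z : ι → Bool, (∏ i, Dm (z i)) * (∑ u, g u * ∏ i, Hm (u i) (z i)) ^ 2 := by
    simp_rw [e1, sq, Finset.sum_mul_sum, Finset.mul_sum, Finset.sum_mul, Finset.mul_sum]
    rw [Finset.sum_comm]
    conv_rhs => rw [Finset.sum_comm]
    refine Finset.sum_congr rfl fun u _ => ?_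
    rw [Finset.sum_comm]
    refine Finset.sum_congr rfl fun w _ => ?_
    refine Finset.sum_congr rfl fun z _ => ?_
    ring
  have hD : ∀ z : ι → Bool, 0 < ∏ i, Dm (z i) := by
    intro z
    refine Finset.prod_pos fun i _ => ?_
    unfold Dm; split_ifs <;> norm_num
  rw [e2, Finset.sum_eq_zero_iff_of_nonneg (fun z _ => mul_nonneg (hD z).le (sq_nonneg _))] at h
  have h3 : ∀ z : ι → Bool, ∑ u, g u * ∏ i, Hm (u i) (z i) = 0 := by
    intro z
    have := h z (Finset.mem_univ _)
    rcases mul_eq_zero.1 this with h1 | h1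
    · exact absurd h1 (hD z).ne'
    · exact pow_eq_zero_iff (two_ne_zero) |>.1 h1
  funext w
  have h4 : ∑ z : ι → Bool, (∏ i, Hm (w i) (z i)) * ∑ u, g u * ∏ i, Hm (u i) (z i) = 0 := by
    simp [h3]
  simp_rw [Finset.mul_sum] at h4
  rw [Finset.sum_comm] at h4
  have h5 : ∀ u : ι → Bool, ∑ z : ι → Bool, (∏ i, Hm (w i) (z i)) * (g u * ∏ i, Hm (u i) (z i))
      = if u = w then g w * 2 ^ Fintype.card ι else 0 := by
    intro u
    have : ∑ z : ι → Bool, (∏ i, Hm (w i) (z i)) * (g u * ∏ i, Hm (u i) (z i))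
        = g u * ∏ i, ∑ c, Hm (w i) c * Hm (u i) c := by
      rw [prod_sum_bool, Finset.mul_sum]
      refine Finset.sum_congr rfl fun z _ => ?_
      rw [Finset.prod_mul_distrib]; ring
    rw [this]
    simp_rw [Hm_orth]
    split_ifs with huw
    · subst huw; simp
    · obtain ⟨i, hi⟩ := Function.ne_iff.1 huw
      rw [Finset.prod_eq_zero (Finset.mem_univ i) (by simp [Ne.symm hi]), mul_zero]
  simp_rw [h5] at h4
  simpa using h4

lemma gam_det (T : Finset (ι → Bool)) (J : (ι → Bool) → Finset ι) :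
    (Matrix.of fun x w : T => ((gam (J x) x w : ℤ) : ℝ)).det ≠ 0 := by
  classical
  set G : Matrix T T ℤ := Matrix.of fun x w : T => gam (J x) x w with hG
  have h1 : (Matrix.of fun x w : T => ((gam (J x) x w : ℤ) : ℝ)) =
      (Int.castRingHom ℝ).mapMatrix G := by
    ext x w; simp [hG]
  have h2 : (Int.castRingHom (ZMod 2)).mapMatrix G = 1 := by
    ext x w
    simp only [hG, RingHom.mapMatrix_apply, Matrix.map_apply, Matrix.of_apply, gam, map_prod]
    by_cases hxw : x = w
    · subst hxw; simp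
    · have hne : (w : ι → Bool) ≠ x := fun h => hxw (Subtype.ext h.symm)
      obtain ⟨i, hi⟩ := Function.ne_iff.1 hne
      rw [Matrix.one_apply_ne hxw]
      refine Finset.prod_eq_zero (Finset.mem_univ i) ?_
      rw [if_neg hi]
      split_ifs
      · simp
      · simp; rfl
  have h3 : ((G.det : ℤ) : ZMod 2) = 1 := by
    have := (Int.castRingHom (ZMod 2)).map_det G
    rw [h2, Matrix.det_one] at this
    simpa using this
  rw [h1, ← RingHom.map_det]
  intro h
  have : G.det = 0 := by simpa using h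
  rw [this] at h3
  simp at h3

theorem reimer (T A B : Finset (ι → Bool)) (J : (ι → Bool) → Finset ι)
    (hA : ∀ x ∈ T, ∀ y : ι → Bool, (∀ i ∈ J x, y i = x i) → y ∈ A)
    (hB : ∀ x ∈ T, ∀ y : ι → Bool, (∀ i, i ∉ J x → y i = !x i) → y ∈ B) :
    T.card ≤ (A ∩ B).card := by
  classical
  let L : (T → ℝ) →ₗ[ℝ] (↥(A ∩ B) → ℝ) :=
    { toFun := fun c w => ∑ x : T, c x * ((gam (J x) x w : ℤ) : ℝ)
      map_add' := by
        intro c d; funext w; simp [add_mul, Finset.sum_add_distrib]
      map_smul' := by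
        intro a c; funext w; simp [Finset.mul_sum, mul_assoc] }
  have hinj : Function.Injective L := by
    rw [← LinearMap.ker_eq_bot, LinearMap.ker_eq_bot']
    intro c hc
    let g : (ι → Bool) → ℝ := fun w => ∑ x : T, c x * ((gam (J x) x w : ℤ) : ℝ)
    have g1 : ∀ w, w ∈ A → w ∈ B → g w = 0 := fun w h1 h2 =>
      congrFun hc ⟨w, Finset.mem_inter.2 ⟨h1, h2⟩⟩
    have g2 : ∀ w, w ∉ A → g w = 0 := by
      intro w hw
      refine Finset.sum_eq_zero fun x _ => ?_
      have : ¬ ∀ i ∈ J x, w i = x.1 i := fun h => hw (hA x x.2 w h)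
      push Not at this
      obtain ⟨i, hi, hne⟩ := this
      have : gam (J x) x w = 0 := by
        unfold gam
        exact Finset.prod_eq_zero (Finset.mem_univ i) (by simp [hi, hne])
      simp [this]
    have g3 : ∀ u, u ∉ B → ∑ w, (∏ i, Bm (u i) (w i)) * g w = 0 := by
      intro u hu
      simp only [g, Finset.mul_sum]
      rw [Finset.sum_comm]
      refine Finset.sum_eq_zero fun x _ => ?_
      have : ¬ ∀ i, i ∉ J x → u i = !x.1 i := fun h => hu (hB x x.2 u h)
      push Not at this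
      obtain ⟨i, hi, hne⟩ := this
      have e : ∑ w : ι → Bool, (∏ i, Bm (u i) (w i)) * (c x * ((gam (J x) x w : ℤ) : ℝ))
          = c x * ∏ i, ∑ b, Bm (u i) b *
            (((if b = x.1 i then 1 else if i ∈ J x then 0 else 2 : ℤ)) : ℝ) := by
        rw [prod_sum_bool, Finset.mul_sum]
        refine Finset.sum_congr rfl fun w _ => ?_
        rw [Finset.prod_mul_distrib, gam]
        push_cast
        ring
      rw [e, Finset.prod_eq_zero (Finset.mem_univ i), mul_zero]
      have hux : u i = x.1 i := by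
        revert hne; cases u i <;> cases x.1 i <;> simp
      rw [hux]
      cases x.1 i <;> simp [Bm, hi]
    have g4 : g = 0 := by
      refine posdef g (Finset.sum_eq_zero fun u _ => ?_)
      by_cases hu : u ∈ B
      · by_cases hu' : u ∈ A
        · rw [g1 u hu' hu, zero_mul]
        · rw [g2 u hu', zero_mul]
      · rw [g3 u hu, mul_zero]
    refine Matrix.eq_zero_of_vecMul_eq_zero (gam_det T J) ?_
    funext w
    have := congrFun g4 w
    simpa [Matrix.vecMul, dotProduct, g] using this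
  have := LinearMap.finrank_le_finrank_of_injective hinj
  rwa [Module.finrank_fintype_fun_eq_card, Module.finrank_fintype_fun_eq_card,
    Fintype.card_coe, Fintype.card_coe] at this

end Pool.Agent.H.MP_63e314_pr
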